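import Pool.Agent.Q108.EW.Defs

set_option autoImplicit false

/-!
Circuit covers of weightings that are constant off a circuit `O`.
-/

namespace Pool.Agent.Results.MP_20b97f_co.CircuitHalfRange

open Finset
open Pool.Agent.H126R2.CDC (MGraph)
open Pool.Agent.Q108.EW.Split (HasCover ConnectedOff LevelsCutOut)

/-- Let `G` be a bridgeless finite graph (loops and parallel edges allowed), `O` a circuit, `c` an
even number and `p` a weighting of the edges by natural numbers that is equal to `c` off `O` and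
whose values on `O` have the same parity (for instance an even weighting). Suppose that `G - O` is
connected, or that every level set `{e ∈ O : p e ≥ j}` is the intersection of `O` with an even set.
Let `m = c / 4`, rounded down. If `c ≥ 4` and the values of `p` on `O` are at least `c - 2 m + 1`
and differ by at most `4 m - 2`, then `(G, p)` has a circuit cover; the same is true if the values
of `p` on `O` are congruent modulo four, at least `c - 2 m` and differ by at most `4 m`. -/
theorem result {V E : Type} [Fintype V] [DecidableEq V] [Fintype E] [DecidableEq E]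
    (G : MGraph V E) (hG : G.Bridgeless) (O : Finset E) (hO : G.IsCircuit O)
    (c : ℕ) (hc : Even c) (p : E → ℕ)
    (hoff : ∀ e, e ∉ O → p e = c) (hpar : ∀ e ∈ O, ∀ f ∈ O, p e % 2 = p f % 2)
    (hlev : ConnectedOff G O ∨ LevelsCutOut G O p)
    (h : (4 ≤ c ∧ (∀ e ∈ O, c + 1 ≤ p e + 2 * (c / 4)) ∧
        (∀ e ∈ O, ∀ f ∈ O, p e + 2 ≤ p f + 4 * (c / 4))) ∨
      ((∀ e ∈ O, ∀ f ∈ O, p e % 4 = p f % 4) ∧ (∀ e ∈ O, c ≤ p e + 2 * (c / 4)) ∧
        (∀ e ∈ O, ∀ f ∈ O, p e ≤ p f + 4 * (c / 4)))) :
    HasCover G p := by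
  have loops : (∃ e ∈ O, (G.ends e).IsDiag) →
      (∀ e ∈ O, c ≤ p e + 2 * (c / 4)) → HasCover G p := by
    intro h hlow
    obtain ⟨e0, he0, hd⟩ := h
    have hOe := Pool.Agent.W831.HI.circuit_loop G O hO e0 he0 hd
    have h1 := hlow e0 he0
    obtain ⟨k, hk⟩ := hc
    obtain ⟨F, hF, hF'⟩ := Pool.Agent.W831.HI.two_valued G hG O hO (p e0) c ⟨k, hk⟩ (by omega)
      (by intro h2; rw [Nat.even_iff]; omega)
    refine ⟨F, hF, fun e => ?_⟩
    rw [hF' e]
    by_cases he : e ∈ O
    · rw [if_pos he]
      rw [hOe, mem_singleton] at he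
      rw [he]
    · rw [if_neg he, hoff e he]
  have hlev' := Pool.Agent.Q108.EW.Split.levels G O p hlev
  rcases h with ⟨hc4, h1, h2⟩ | ⟨hmod, h1, h2⟩
  · by_cases hl : ∃ e ∈ O, (G.ends e).IsDiag
    · exact loops hl fun e he => by have := h1 e he; omega
    · exact Pool.Agent.Q108.EW.part2b G hG O hO (fun e he h => hl ⟨e, he, h⟩) c hc hc4 p hoff
        hpar hlev' h1 h2
  · by_cases hl : ∃ e ∈ O, (G.ends e).IsDiag
    · exact loops hl h1
    · exact Pool.Agent.Q108.EW.part2a G hG O hO (fun e he h => hl ⟨e, he, h⟩) c hc p hoff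
        hmod hlev' h1 h2

end Pool.Agent.Results.MP_20b97f_co.CircuitHalfRange
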