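import Pool.Agent.Q108.EW.Defs

set_option autoImplicit false

/-!
Circuit covers of weightings that are constant off an even set `O` of edges.
-/

namespace Pool.Agent.Results.MP_20b97f_co.EvenSetQuarterRange

open Finset
open Pool.Agent.H126R2.CDC (MGraph)
open Pool.Agent.Q108.EW.Split (HasCover ConnectedOff LevelsCutOut)

/-- Let `G` be a bridgeless finite graph (loops and parallel edges allowed), `O` an even edge set,
`c` an even number and `p` a weighting of the edges by natural numbers that is equal to `c` off `O`
and whose values on `O` have the same parity (for instance an even weighting). Suppose that `G - O`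
is connected, or that every level set `{e ∈ O : p e ≥ j}` is the intersection of `O` with an even
set. Let `m = c / 4`, rounded down. If the values of `p` on `O` are at least `c - m` and differ by
at most `2 m`, then `(G, p)` has a circuit cover. -/
theorem result {V E : Type} [Fintype V] [DecidableEq V] [Fintype E] [DecidableEq E]
    (G : MGraph V E) (hG : G.Bridgeless) (O : Finset E) (hO : G.IsEven O)
    (c : ℕ) (hc : Even c) (p : E → ℕ)
    (hoff : ∀ e, e ∉ O → p e = c) (hpar : ∀ e ∈ O, ∀ f ∈ O, p e % 2 = p f % 2)
    (hlev : ConnectedOff G O ∨ LevelsCutOut G O p)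
    (h1 : ∀ e ∈ O, c ≤ p e + c / 4) (h2 : ∀ e ∈ O, ∀ f ∈ O, p e ≤ p f + 2 * (c / 4)) :
    HasCover G p :=
  Pool.Agent.Q108.EW.part1 G hG O hO c hc p hoff hpar
    (Pool.Agent.Q108.EW.Split.levels G O p hlev) h1 h2

end Pool.Agent.Results.MP_20b97f_co.EvenSetQuarterRange
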