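import Pool.Agent.Q108.EW.Defs

set_option autoImplicit false

/-!
Circuit covers of weightings that are constant off an even set `O` of edges such that two even sets
cover all other edges.
-/

namespace Pool.Agent.Results.MP_20b97f_co.FourFlowOff

open Finset
open Pool.Agent.H126R2.CDC (MGraph)
open Pool.Agent.Q108.EW.Split (HasCover ConnectedOff)

/-- Let `O` be an even edge set of the finite graph `G` (loops and parallel edges allowed) such that
`G - O` is connected and two even sets of `G` cover all edges outside `O` (`G / O` has a
nowhere-zero 4-flow). Let `c` be an even number and `p` a weighting of the edges by natural numbers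
that is equal to `c` off `O` and whose values on `O` have the same parity (for instance an even
weighting). If the values of `p` on `O` are at least `c / 2` and differ by at most `c`, then
`(G, p)` has a circuit cover. -/
theorem result {V E : Type} [Fintype V] [DecidableEq V] [Fintype E] [DecidableEq E]
    (G : MGraph V E) (O : Finset E) (hO : G.IsEven O) (hconn : ConnectedOff G O)
    (h4 : ∃ A B : Finset E, G.IsEven A ∧ G.IsEven B ∧ ∀ e, e ∉ O → e ∈ A ∨ e ∈ B)
    (c : ℕ) (hc : Even c) (p : E → ℕ)
    (hoff : ∀ e, e ∉ O → p e = c) (hpar : ∀ e ∈ O, ∀ f ∈ O, p e % 2 = p f % 2)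
    (h1 : ∀ e ∈ O, c ≤ 2 * p e) (h2 : ∀ e ∈ O, ∀ f ∈ O, p e ≤ p f + c) :
    HasCover G p := by
  obtain ⟨A, B, hA, hB, hAB⟩ := h4
  exact Pool.Agent.Q108.EW.part3 G O hO A B hA hB hAB (Pool.Agent.Q108.EW.traces G O hconn) c hc p
    hoff hpar h1 h2

end Pool.Agent.Results.MP_20b97f_co.FourFlowOff
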