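import Pool.Agent.Q213.SC.Cov

set_option autoImplicit false

namespace Pool.Agent.Results.MP_20b97f_co.InvariantWeights

open Pool.Agent.H126R2.CDC (MGraph)

/-- Seymour's circuit cover conjecture, for weights of any parity, for weightings that are invariant
under a vertex-transitive group action without fixed arcs, and for their lifts to coverings.
`G` is a finite graph (loops and parallel edges allowed) on which the finite group `Γ` acts,
transitively on the vertices (`htr`), such that no element of `Γ` other than `1` fixes an edge that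
is not a loop together with one of its ends (`hfree`); `p` is a `Γ`-invariant weighting. `G'` is
mapped to `G`, onto the vertices, so that for every vertex `v'` of `G'` and every edge `e` of `G`
the edges over `e` have as many ends at `v'` as `e` has at the image of `v'`, and only loops lie
over loops (for instance `G' = G`). The lifted weighting `q` of `G'` has a circuit cover if and
only if it lies in the cone and in the lattice of the circuits, and if and only if at every vertex
the weights of the edges at this vertex that are not loops have an even sum and none of them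
exceeds the sum of the other ones. -/
theorem result (V E V' E' Γ : Type) [Fintype V] [DecidableEq V] [Fintype E] [DecidableEq E]
    [Fintype V'] [DecidableEq V'] [Fintype E'] [DecidableEq E'] [Group Γ] [Fintype Γ]
    [MulAction Γ V] [MulAction Γ E] (G : MGraph V E) (G' : MGraph V' E')
    (hG : ∀ (g : Γ) (e : E), G.ends (g • e) = (G.ends e).map (fun v => g • v))
    (htr : ∀ v w : V, ∃ g : Γ, g • v = w)
    (hfree : ∀ (g : Γ) (v : V) (e : E), v ∈ G.ends e → ¬ (G.ends e).IsDiag → g • v = v →
      g • e = e → g = 1)
    (p : E → ℕ) (hp : ∀ (g : Γ) (e : E), p (g • e) = p e)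
    (φ : V' → V) (ψ : E' → E) (hsurj : Function.Surjective φ)
    (hcov : ∀ (v' : V') (e : E),
      G'.deg (Finset.univ.filter (fun e' => ψ e' = e)) v' = G.deg {e} (φ v'))
    (hloop : ∀ e' : E', (G.ends (ψ e')).IsDiag → (G'.ends e').IsDiag)
    (q : E' → ℕ) (hq : ∀ e', q e' = p (ψ e')) :
    ((∃ F : Multiset (Finset E'), (∀ C ∈ F, G'.IsCircuit C) ∧
        ∀ e, F.countP (fun C => e ∈ C) = q e) ↔
      (∃ w : Finset E' → ℝ, (∀ C, 0 ≤ w C) ∧ (∀ C, ¬ G'.IsCircuit C → w C = 0) ∧
        ∀ e, (q e : ℝ) = ∑ C : Finset E', w C * (if e ∈ C then 1 else 0)) ∧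
      (fun e => (q e : ℤ)) ∈ AddSubgroup.closure
        {x : E' → ℤ | ∃ C, G'.IsCircuit C ∧ x = fun e => if e ∈ C then 1 else 0}) ∧
    ((∃ F : Multiset (Finset E'), (∀ C ∈ F, G'.IsCircuit C) ∧
        ∀ e, F.countP (fun C => e ∈ C) = q e) ↔
      (∀ v, Even (∑ f ∈ Finset.univ.filter
        (fun f => v ∈ G'.ends f ∧ ¬ (G'.ends f).IsDiag), q f)) ∧
      ∀ v e, v ∈ G'.ends e → ¬ (G'.ends e).IsDiag →
        2 * q e ≤ ∑ f ∈ Finset.univ.filter
          (fun f => v ∈ G'.ends f ∧ ¬ (G'.ends f).IsDiag), q f) := by
  have hqq : q = fun e' => p (ψ e') := funext hq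
  subst hqq
  have h := Pool.Agent.Q213.SC.main_cov hG htr hfree hp hsurj hcov hloop
  refine ⟨h.1, h.2.trans ?_⟩
  unfold Pool.Agent.Q213.SC.Loc
  constructor
  · rintro ⟨h1, h2⟩
    refine ⟨h1, fun v e hv he => h2 v e ?_⟩
    exact Finset.mem_filter.2 ⟨Finset.mem_univ _, hv, he⟩
  · rintro ⟨h1, h2⟩
    refine ⟨h1, fun v e he => ?_⟩
    have h3 := (Finset.mem_filter.1 he).2
    exact h2 v e h3.1 h3.2

end Pool.Agent.Results.MP_20b97f_co.InvariantWeights
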